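import Pool.Agent.KS6_98.TwK.Main

set_option autoImplicit false

namespace Pool.Agent.Results.MP_8470a8_co.ManyParts

open Pool.Agent.KS6_98.TwK

/-- For every `k ≥ 1` put `N k = 1000 ^ ⌈log₂ k⌉ ≤ (2 k) ^ 10`.  The vertex set of every finite graph
of treewidth at least `w ≥ k - 1` can be partitioned into `k` parts each of which induces a
subgraph of treewidth at least `⌊w / N k⌋`. -/
theorem result (k : ℕ) (hk : 1 ≤ k) :
    1000 ^ Nat.clog 2 k ≤ (2 * k) ^ 10 ∧
    ∀ (V : Type) [Fintype V] (G : SimpleGraph V) (w : ℕ), k ≤ w + 1 → ¬ HasTD G w →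
      ∃ P : V → Fin k, ∀ i, ¬ HasTD (G.induce {v | P v = i}) (w / 1000 ^ Nat.clog 2 k) :=
  ⟨clog_bound k hk, fun V _ G w hw hG => main k hk V G w hw hG⟩

end Pool.Agent.Results.MP_8470a8_co.ManyParts
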